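import Mathlib
import Pool.Agent.H843R2.Core.Final
import Pool.Agent.H843R2.Core.Morse

set_option autoImplicit false

open Set
open scoped Manifold ContDiff
open Pool.Agent.H843R2.Core

namespace Pool.Agent.Results.MP_7ba843_gt.NotACore

/-- There are a closed connected orientable smooth `4`-manifold `X` and a closed orientable surface
`S` of genus `g` smoothly embedded in `X` which bounds a smoothly embedded handlebody, such that
`π₁(S) → π₁(X)` is surjective (at every base point) and `χ(X) ≤ 2 + g`, while no trisection of `X`
(of any type, even a merely topological one) has core `S`. -/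
theorem result :
    ∃ (X : Type) (_ : TopologicalSpace X) (_ : ChartedSpace E4 X),
      IsManifold (𝓡 4) ∞ X ∧ T2Space X ∧ CompactSpace X ∧ ConnectedSpace X ∧ IsOrientable X ∧
      ∃ (g : ℕ) (S : Set X) (χ : ℤ),
        BoundsHandlebody g S ∧
        (∀ b : S, Function.Surjective
          (FundamentalGroup.map (⟨Subtype.val, continuous_subtype_val⟩ : C(S, X)) b)) ∧
        HasEulerCharacteristic X χ ∧ χ ≤ 2 + g ∧
        ∀ (g' : ℕ) (k : Fin 3 → ℕ) (P : Fin 3 → Set X), IsTrisection g' k P → ⋂ l, P l ≠ S :=
  ⟨X, inferInstance, inferInstance, inferInstance, inferInstance, inferInstance, inferInstance,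
    orientable, 1, Srf, 2, bounds, pi1_surj, euler, by norm_num,
    fun _ _ _ T hS => no_trisection T hS⟩

end Pool.Agent.Results.MP_7ba843_gt.NotACore
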